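import Pool.Agent.W601.RP.Stm2

/-!
Project RP (helper601), part DD: the continuous characters of the dual are the evaluations.
-/

set_option autoImplicit false
open scoped Classical
open Filter Topology

namespace W885.RP

open Pool.Agent.W601.RP

/-- Basic neighbourhoods of `1` in the dual. -/
lemma nhds_one_dual {A : Type} [CommGroup A] [TopologicalSpace A] {s : Set (PontryaginDual A)}
    (hs : s ∈ 𝓝 (1 : PontryaginDual A)) :
    ∃ K : Set A, IsCompact K ∧ ∃ U : Set Circle, IsOpen U ∧ (1 : Circle) ∈ U ∧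
      ∀ χ : PontryaginDual A, (∀ a ∈ K, χ a ∈ U) → χ ∈ s := by
  have h1 : s ∈ Filter.comap (ContinuousMonoidHom.toContinuousMap (A := A) (B := Circle))
      (𝓝 (ContinuousMonoidHom.toContinuousMap (1 : A →ₜ* Circle))) := by
    have h := (ContinuousMonoidHom.isInducing_toContinuousMap A Circle).nhds_eq_comap
      (1 : A →ₜ* Circle)
    rw [← h]
    exact hs
  obtain ⟨t, ht, hts⟩ := Filter.mem_comap.1 h1
  rw [ContinuousMap.mem_nhds_iff] at ht
  obtain ⟨S, hSf, hS, hSt⟩ := ht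
  refine ⟨⋃ p ∈ S, p.1, hSf.isCompact_biUnion (fun p hp => (hS p.1 p.2 hp).1),
    ⋂ p ∈ {p : Set A × Set Circle | p ∈ S ∧ p.1.Nonempty}, p.2, ?_, ?_, ?_⟩
  · exact (hSf.subset (fun p hp => hp.1)).isOpen_biInter (fun p hp => (hS p.1 p.2 hp.1).2.1)
  · rw [Set.mem_iInter₂]
    rintro p ⟨hp, a, ha⟩
    exact (hS p.1 p.2 hp).2.2 ha
  · intro χ hχ
    apply hts
    apply hSt
    intro K' U' hKU a ha
    have h2 : χ a ∈ ⋂ p ∈ {p : Set A × Set Circle | p ∈ S ∧ p.1.Nonempty}, p.2 :=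
      hχ a (Set.mem_biUnion hKU ha)
    rw [Set.mem_iInter₂] at h2
    exact h2 (K', U') ⟨hKU, a, ha⟩

/-- Neighbourhoods of `1` in the circle contain the images of small balls. -/
lemma circle_nhds {U : Set Circle} (hU : IsOpen U) (h1 : (1 : Circle) ∈ U) :
    ∃ ε : ℝ, 0 < ε ∧ ∀ y : TT, ‖y‖ < ε → AddCircle.toCircle y ∈ U := by
  have h2 : IsOpen {y : TT | AddCircle.toCircle y ∈ U} :=
    hU.preimage AddCircle.continuous_toCircle
  have h3 : (0 : TT) ∈ {y : TT | AddCircle.toCircle y ∈ U} := by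
    show AddCircle.toCircle (0 : TT) ∈ U
    rw [AddCircle.toCircle_zero]
    exact h1
  obtain ⟨ε, hε, hb⟩ := Metric.isOpen_iff.1 h2 0 h3
  refine ⟨ε, hε, fun y hy => ?_⟩
  apply hb
  rw [Metric.mem_ball, dist_zero_right]
  exact hy

theorem dd : S_CH → S_CPT → S_BIDU → S_GS → S_RED → S_DD := by
  intro hCH hCPT hBIDU hGS hRED Ψ
  obtain ⟨hCH1, hCH2⟩ := hCH
  obtain ⟨hG1, hG2, hG3, -, -⟩ := hGS
  obtain ⟨-, hR2, hR3, hR4⟩ := hRED
  choose ev hev using hCH2
  have hT : (1 : ℝ) ≠ 0 := one_ne_zero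
  -- additivity of the elements of the group
  have hadd : ∀ (g : ↥GS) (h h' : ↥H), (g : ↥H → TT) (h + h') =
      (g : ↥H → TT) h + (g : ↥H → TT) h' := by
    intro g h h'
    obtain ⟨k, -, hk⟩ := hG1 g
    rw [hk]
    show pr k ((h : ℕ → TT) + (h' : ℕ → TT)) = pr k (h : ℕ → TT) + pr k (h' : ℕ → TT)
    exact hR3 k _ _
  have hevadd : ∀ h h' : ↥H, ev (h + h') = ev h * ev h' := by
    intro h h'
    apply PontryaginDual.ext
    intro a
    have e1 := hev (h + h') (Multiplicative.toAdd a)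
    have e2 := hev h (Multiplicative.toAdd a)
    have e3 := hev h' (Multiplicative.toAdd a)
    rw [ofAdd_toAdd] at e1 e2 e3
    have e4 : (ev h * ev h') a = ev h a * ev h' a := rfl
    rw [e4, e1, e2, e3, hadd, AddCircle.toCircle_add]
  -- the homomorphism
  let φ := AddCircle.homeomorphCircle (T := (1 : ℝ)) hT
  have hφ : ∀ y : TT, φ y = AddCircle.toCircle y := fun y =>
    AddCircle.homeomorphCircle_apply hT y
  have hinj : Function.Injective (AddCircle.toCircle : TT → Circle) :=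
    AddCircle.injective_toCircle hT
  have hsymm : ∀ z : Circle, AddCircle.toCircle (φ.symm z) = z := by
    intro z
    rw [← hφ, Homeomorph.apply_symm_apply]
  let χ : ↥H →+ TT := AddMonoidHom.mk' (fun h => φ.symm (Ψ (ev h))) (by
    intro h h'
    apply hinj
    rw [AddCircle.toCircle_add, hsymm, hsymm, hsymm, hevadd, map_mul])
  have hχ : ∀ h : ↥H, AddCircle.toCircle (χ h) = Ψ (ev h) := fun h => hsymm _
  -- continuity
  have hcont : Continuous (fun c : PontryaginDual (Multiplicative ↥GS) => φ.symm (Ψ c)) :=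
    φ.symm.continuous.comp (map_continuous Ψ)
  have hnb : {c : PontryaginDual (Multiplicative ↥GS) | ‖φ.symm (Ψ c)‖ < 1 / 4} ∈
      𝓝 (1 : PontryaginDual (Multiplicative ↥GS)) := by
    have h1 : IsOpen {c : PontryaginDual (Multiplicative ↥GS) | ‖φ.symm (Ψ c)‖ < 1 / 4} :=
      isOpen_lt (continuous_norm.comp hcont) continuous_const
    apply h1.mem_nhds
    show ‖φ.symm (Ψ 1)‖ < 1 / 4
    have h2 : φ.symm (Ψ 1) = 0 := by
      apply hinj
      rw [hsymm, map_one, AddCircle.toCircle_zero]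
    rw [h2, norm_zero]
    norm_num
  obtain ⟨K, hK, U, hU, hU1, hKU⟩ := nhds_one_dual hnb
  obtain ⟨ε₀, hε₀, hε⟩ := circle_nhds hU hU1
  have hK' : IsCompact {g : ↥GS | Multiplicative.ofAdd g ∈ K} := hK
  obtain ⟨A, C, hA, hC, hAC⟩ := hCPT _ hK'
  obtain ⟨k, hk⟩ := hBIDU A hA χ (ε₀ / (2 * C)) (by positivity) (by
    intro h hh
    have hmem : ev h ∈ {c : PontryaginDual (Multiplicative ↥GS) | ‖φ.symm (Ψ c)‖ < 1 / 4} := by
      apply hKU
      intro a ha
      have e1 := hev h (Multiplicative.toAdd a)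
      rw [ofAdd_toAdd] at e1
      rw [e1]
      apply hε
      obtain ⟨k, hk1, hk2, hk3⟩ := hAC (Multiplicative.toAdd a) ha
      rw [hk1]
      have h5 := hR4 k (h : ℕ → TT) (ε₀ / (2 * C)) (fun t ht => (hh t (hk2 t ht)).le)
      calc ‖phi k h‖ = ‖pr k (h : ℕ → TT)‖ := rfl
        _ ≤ (∑ t ∈ k.support, |(k t : ℝ)|) * (ε₀ / (2 * C)) := h5
        _ ≤ C * (ε₀ / (2 * C)) := mul_le_mul_of_nonneg_right hk3 (by positivity)
        _ = ε₀ / 2 := by field_simp
        _ < ε₀ := by linarith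
    exact hmem)
  refine ⟨Multiplicative.ofAdd ⟨phi k, hG2 k⟩, fun c => ?_⟩
  obtain ⟨h, hh⟩ := hCH1 c
  have hc : c = ev h := by
    apply PontryaginDual.ext
    intro a
    have e1 := hev h (Multiplicative.toAdd a)
    have e2 := hh (Multiplicative.toAdd a)
    rw [ofAdd_toAdd] at e1 e2
    rw [e1, e2]
  rw [hc, hev h ⟨phi k, hG2 k⟩, ← hχ h, hk h]
  rfl

end W885.RP
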